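import Pool.Agent.U863.ST.Tree
import Pool.Agent.Results.MP_600e55_nt.SymbolPartitions

/-! Trees of Steinberg symbols, `p` odd: the maximal pro-`p` Galois group. -/

set_option autoImplicit false

namespace Pool.Agent.U863.ST

open Pool.Agent.Y920.EP
open Pool.Agent.Y920.ETC (Compat)
open Pool.Agent.Results.MP_600e55_nt.SymbolPartitions

/-- the valuation ring with `p` as a unit -/
theorem compatible_of_hasVal (p : ℕ) [Fact p.Prime] {F : Type} [Field F] (hpF : (p : F) ≠ 0)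
    (h : HasVal (powers F p)) : ∃ O : ValuationSubring F, IsCompatible p O := by
  have hp : p.Prime := Fact.out
  obtain ⟨H, O, hTH, hH, hO⟩ := h
  obtain ⟨O', -, hpO, hO'⟩ := Pool.Agent.Y232.EP.t_COARSE' F p hp hpF (powers F p) H
    (fun x => ⟨fun ⟨y, hy⟩ => ⟨y, hy.symm⟩, fun ⟨y, hy⟩ => ⟨y, hy.symm⟩⟩) hTH O hO
  refine ⟨O', hpO, ?_, ?_⟩
  · intro x hx hx'
    obtain ⟨t, ⟨y, hy⟩, e⟩ := hO'.one x hx hx'
    refine ⟨y, ?_⟩
    rw [← e, ← hy]
    change ((y : F)) ^ p = ((y ^ p : Fˣ) : F)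
    rw [Units.val_pow_eq_pow_val]
  · intro e
    apply hH
    rw [eq_top_iff, ← e]
    refine sup_le ?_ hTH
    intro u hu
    refine hO'.units u ?_ ?_
    · rw [← ValuationSubring.valuation_le_one_iff]
      exact le_of_eq hu
    · rw [← ValuationSubring.valuation_le_one_iff]
      exact le_of_eq (inv_mem hu : u⁻¹ ∈ O'.unitGroup)

/-- the decomposition group -/
theorem decomp_of_compatible (p : ℕ) [Fact p.Prime] (hp2 : p ≠ 2) {F : Type} [Field F]
    (hζ : ∃ ζ : F, IsPrimitiveRoot ζ p) {O : ValuationSubring F} (hO : IsCompatible p O)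
    (K : IntermediateField F (AlgebraicClosure F)) (hK : IsMaximalPExtension p K) :
    IsDecompositionGroup (⊤ : Subgroup (↥K ≃ₐ[F] ↥K)) := by
  have hp : p.Prime := Fact.out
  have hG : AllG := ⟨Pool.Agent.Y86.EP.t_KUM, Pool.Agent.Y279.EP.t_UP,
    Pool.Agent.Y925.EP.t_TOWER', Pool.Agent.Y419.EP.t_INERT', Pool.Agent.Y469.EP.t_MAX'⟩
  have hpF : (p : F) ≠ 0 := by
    obtain ⟨ζ, hζ⟩ := hζ
    have : NeZero p := ⟨hp.ne_zero⟩
    exact hζ.neZero'.ne
  obtain ⟨c, hc⟩ : ∃ c : Fˣ, c ∉ O.unitGroup ⊔ powers F p := by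
    by_contra hc
    push Not at hc
    exact hO.ne_top (eq_top_iff.2 fun c _ => hc c)
  have hD : DecInert F K := decInert hG p hp hp2 F hζ O ⟨hO.inv_mem, hpF, hO.one_add⟩
    ⟨c, ?_⟩ K hK
  · obtain ⟨Γ, hΓ, w, hw, σ, hσ, hσw⟩ := hD
    exact ⟨Γ, hΓ, w, fun τ => ⟨fun _ x => hw τ x, fun _ => trivial⟩, σ, trivial, hσ, hσw⟩
  · rintro f ⟨h6, h7⟩
    apply hc
    have h8 : c * f ^ p ∈ O.unitGroup := Pool.Agent.R675.TP.mem_unitGroup_of h6 h7
    have h9 : f ^ p ∈ powers F p := ⟨f, rfl⟩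
    have h10 := mul_mem (show c * f ^ p ∈ O.unitGroup ⊔ powers F p from
      Subgroup.mem_sup_left h8)
      (inv_mem (show f ^ p ∈ O.unitGroup ⊔ powers F p from Subgroup.mem_sup_right h9))
    rwa [mul_inv_cancel_right] at h10

end Pool.Agent.U863.ST
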