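import Mathlib
import Pool.Agent.Y920.ETC.Stm

/-! Gluing of valuation rings: from subgroups `T₁`, `T₂` of `F*` to `T₁ ∩ T₂`. -/

set_option autoImplicit false

namespace Pool.Agent.U863.ST

open Pool.Agent.Y920.ETC (Compat)

variable {F : Type} [Field F]

/-- the products of the elements of two valuation rings form a valuation ring -/
def prodRing (A B : ValuationSubring F) : ValuationSubring F where
  carrier := {u | ∃ a ∈ A, ∃ b ∈ B, u = a * b}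
  mul_mem' := by
    rintro _ _ ⟨a, ha, b, hb, rfl⟩ ⟨a', ha', b', hb', rfl⟩
    exact ⟨a * a', A.mul_mem _ _ ha ha', b * b', B.mul_mem _ _ hb hb', by ring⟩
  one_mem' := ⟨1, A.one_mem, 1, B.one_mem, (one_mul 1).symm⟩
  zero_mem' := ⟨0, A.zero_mem, 0, B.zero_mem, (zero_mul 0).symm⟩
  neg_mem' := by
    rintro _ ⟨a, ha, b, hb, rfl⟩
    exact ⟨-a, A.neg_mem _ ha, b, hb, by ring⟩
  add_mem' := by
    have key : ∀ a ∈ A, ∀ b ∈ B, ∀ a' ∈ A, ∀ r ∈ B, ∃ c ∈ A, ∃ d ∈ B,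
        a * b + a' * (r * b) = c * d := by
      intro a ha b hb a' ha' r hr
      by_cases hrA : r ∈ A
      · exact ⟨a + a' * r, A.add_mem _ _ ha (A.mul_mem _ _ ha' hrA), b, hb, by ring⟩
      · have hr0 : r ≠ 0 := fun h => hrA (by rw [h]; exact A.zero_mem)
        have hri : r⁻¹ ∈ A := (A.mem_or_inv_mem r).resolve_left hrA
        refine ⟨a * r⁻¹ + a', A.add_mem _ _ (A.mul_mem _ _ ha hri) ha', r * b,
          B.mul_mem _ _ hr hb, ?_⟩
        field_simp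
    rintro _ _ ⟨a, ha, b, hb, rfl⟩ ⟨a', ha', b', hb', rfl⟩
    by_cases hb0 : b = 0
    · exact ⟨a', ha', b', hb', by rw [hb0]; ring⟩
    by_cases hb0' : b' = 0
    · exact ⟨a, ha, b, hb, by rw [hb0']; ring⟩
    rcases B.mem_or_inv_mem (b' / b) with h | h
    · obtain ⟨c, hc, d, hd, e⟩ := key a ha b hb a' ha' _ h
      refine ⟨c, hc, d, hd, ?_⟩
      rw [← e, div_mul_cancel₀ _ hb0]
    · rw [inv_div] at h
      obtain ⟨c, hc, d, hd, e⟩ := key a' ha' b' hb' a ha _ h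
      refine ⟨c, hc, d, hd, ?_⟩
      rw [← e, div_mul_cancel₀ _ hb0', add_comm]
  mem_or_inv_mem' := by
    intro x
    rcases A.mem_or_inv_mem x with h | h
    · exact Or.inl ⟨x, h, 1, B.one_mem, (mul_one x).symm⟩
    · exact Or.inr ⟨x⁻¹, h, 1, B.one_mem, (mul_one _).symm⟩

lemma mem_prodRing {A B : ValuationSubring F} {u : F} :
    u ∈ prodRing A B ↔ ∃ a ∈ A, ∃ b ∈ B, u = a * b := Iff.rfl

/-- `x` is in the maximal ideal, in terms of the valuation -/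
lemma lt_one {A : ValuationSubring F} {x : F} (hx : x ≠ 0) :
    A.valuation x < 1 ↔ x ∈ A ∧ x⁻¹ ∉ A := by
  rw [← A.valuation_le_one_iff x, ← A.valuation_le_one_iff x⁻¹, map_inv₀]
  have h0 : 0 < A.valuation x := (A.valuation.pos_iff).2 hx
  constructor
  · intro h
    refine ⟨h.le, ?_⟩
    rw [not_le]
    exact (one_lt_inv₀ h0).2 h
  · rintro ⟨h1, h2⟩
    rw [not_le, one_lt_inv₀ h0] at h2
    exact h2

/-- approximation: the units of the product ring -/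
theorem unit_mem {A B : ValuationSubring F} (hAB : ¬ A ≤ B) (hBA : ¬ B ≤ A)
    {T₁ T₂ H₁ H₂ N : Subgroup Fˣ} (hA : Compat T₁ H₁ A) (hB : Compat T₂ H₂ B)
    (h1 : T₁ ≤ N) (h2 : T₂ ≤ N) (u : Fˣ) (hu : (u : F) ∈ prodRing A B)
    (hu' : ((u⁻¹ : Fˣ) : F) ∈ prodRing A B) : u ∈ N := by
  obtain ⟨a, ha, b, hb, e⟩ := hu
  obtain ⟨a', ha', b', hb', e'⟩ := hu'
  have hab : a * b ≠ 0 := by rw [← e]; exact u.ne_zero
  have hab' : a' * b' ≠ 0 := by rw [← e']; exact (u⁻¹).ne_zero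
  have a0 := left_ne_zero_of_mul hab
  have b0 := right_ne_zero_of_mul hab
  have a0' := left_ne_zero_of_mul hab'
  have b0' := right_ne_zero_of_mul hab'
  -- an element which is small for `A` and large for `B`
  obtain ⟨x, x0, hxA, hxB⟩ : ∃ x : F, x ≠ 0 ∧ A.valuation x < 1 ∧ B.valuation x⁻¹ < 1 := by
    obtain ⟨s, hs, hs'⟩ := SetLike.not_le_iff_exists.1 hAB
    obtain ⟨r, hr, hr'⟩ := SetLike.not_le_iff_exists.1 hBA
    have s0 : s ≠ 0 := fun h => hs' (by rw [h]; exact B.zero_mem)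
    have r0 : r ≠ 0 := fun h => hr' (by rw [h]; exact A.zero_mem)
    have hri := (A.mem_or_inv_mem r).resolve_left hr'
    have hsi := (B.mem_or_inv_mem s).resolve_left hs'
    refine ⟨s * r⁻¹, mul_ne_zero s0 (inv_ne_zero r0), ?_, ?_⟩
    · rw [lt_one (mul_ne_zero s0 (inv_ne_zero r0))]
      refine ⟨A.mul_mem _ _ hs hri, fun h => hr' ?_⟩
      have := A.mul_mem _ _ h hs
      rwa [mul_inv, inv_inv, mul_comm s⁻¹ r, mul_assoc, inv_mul_cancel₀ s0, mul_one] at this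
    · rw [lt_one (inv_ne_zero (mul_ne_zero s0 (inv_ne_zero r0))), inv_inv, mul_inv, inv_inv]
      refine ⟨B.mul_mem _ _ hsi hr, fun h => hs' ?_⟩
      have := B.mul_mem _ _ h hr
      rwa [mul_assoc, inv_mul_cancel₀ r0, mul_one] at this
  obtain ⟨β, β0, q1, q2, q3⟩ : ∃ β : F, β ≠ 0 ∧ A.valuation β ≤ 1 ∧ A.valuation (β * b) ≤ 1 ∧
      B.valuation β⁻¹ ≤ 1 := by
    by_cases hbA : b ∈ A
    · refine ⟨1, one_ne_zero, by rw [map_one], ?_, by rw [inv_one, map_one]⟩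
      rw [one_mul]
      exact (A.valuation_le_one_iff b).2 hbA
    · refine ⟨b⁻¹, inv_ne_zero b0, ?_, ?_, ?_⟩
      · exact (A.valuation_le_one_iff _).2 ((A.mem_or_inv_mem b).resolve_left hbA)
      · rw [inv_mul_cancel₀ b0, map_one]
      · rw [inv_inv]
        exact (B.valuation_le_one_iff _).2 hb
  obtain ⟨α, α0, r1, r2, r3⟩ : ∃ α : F, α ≠ 0 ∧ A.valuation α ≤ 1 ∧ B.valuation α⁻¹ ≤ 1 ∧
      B.valuation (α⁻¹ * a') ≤ 1 := by
    by_cases haB : a' ∈ B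
    · refine ⟨1, one_ne_zero, by rw [map_one], by rw [inv_one, map_one], ?_⟩
      rw [inv_one, one_mul]
      exact (B.valuation_le_one_iff _).2 haB
    · refine ⟨a', a0', (A.valuation_le_one_iff _).2 ha', ?_, ?_⟩
      · exact (B.valuation_le_one_iff _).2 ((B.mem_or_inv_mem a').resolve_left haB)
      · rw [inv_mul_cancel₀ a0', map_one]
  have va : A.valuation a ≤ 1 := (A.valuation_le_one_iff _).2 ha
  have vb : B.valuation b' ≤ 1 := (B.valuation_le_one_iff _).2 hb'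
  set z : F := x * α * β with hz
  have z0 : z ≠ 0 := mul_ne_zero (mul_ne_zero x0 α0) β0
  have s1 : A.valuation z < 1 := by
    rw [hz, map_mul, map_mul]
    exact mul_lt_one_of_lt_of_le (mul_lt_one_of_lt_of_le hxA r1) q1
  have s2 : A.valuation (z * u) < 1 := by
    have : z * u = x * α * (β * b) * a := by rw [e, hz]; ring
    rw [this, map_mul, map_mul, map_mul]
    exact mul_lt_one_of_lt_of_le (mul_lt_one_of_lt_of_le (mul_lt_one_of_lt_of_le hxA r1) q2) va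
  have s3 : B.valuation z⁻¹ < 1 := by
    have : z⁻¹ = x⁻¹ * α⁻¹ * β⁻¹ := by rw [hz, mul_inv, mul_inv]
    rw [this, map_mul, map_mul]
    exact mul_lt_one_of_lt_of_le (mul_lt_one_of_lt_of_le hxB r2) q3
  have s4 : B.valuation (z⁻¹ * (u⁻¹ : Fˣ)) < 1 := by
    have : z⁻¹ * (u⁻¹ : Fˣ) = x⁻¹ * (α⁻¹ * a') * β⁻¹ * b' := by
      rw [e', hz, mul_inv, mul_inv]; ring
    rw [this, map_mul, map_mul, map_mul]
    exact mul_lt_one_of_lt_of_le (mul_lt_one_of_lt_of_le (mul_lt_one_of_lt_of_le hxB r3) q3) vb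
  have zu0 : z * u ≠ 0 := mul_ne_zero z0 u.ne_zero
  have zi0 : z⁻¹ ≠ 0 := inv_ne_zero z0
  have zui0 : z⁻¹ * (u⁻¹ : Fˣ) ≠ 0 := mul_ne_zero zi0 (u⁻¹).ne_zero
  obtain ⟨t1, ht1, f1⟩ := hA.one _ ((lt_one zu0).1 s2).1 ((lt_one zu0).1 s2).2
  obtain ⟨t2, ht2, f2⟩ := hA.one _ ((lt_one z0).1 s1).1 ((lt_one z0).1 s1).2
  obtain ⟨t3, ht3, f3⟩ := hB.one _ ((lt_one zui0).1 s4).1 ((lt_one zui0).1 s4).2
  obtain ⟨t4, ht4, f4⟩ := hB.one _ ((lt_one zi0).1 s3).1 ((lt_one zi0).1 s3).2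
  have hu : u * (t2 * t3) = t1 * t4 := by
    ext
    rw [Units.val_mul, Units.val_mul, Units.val_mul, f1, f2, f3, f4, Units.val_inv_eq_inv_val]
    have u0 : (u : F) ≠ 0 := u.ne_zero
    field_simp
    ring
  have : u = (t1 * t4) * (t2 * t3)⁻¹ := by rw [← hu, mul_inv_cancel_right]
  rw [this]
  exact N.mul_mem (N.mul_mem (h1 ht1) (h2 ht4)) (N.inv_mem (N.mul_mem (h1 ht2) (h2 ht3)))

/-- `T` has a valuation ring: `1 + m ⊆ T`, and the units lie in a proper subgroup over `T` -/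
def HasVal (T : Subgroup Fˣ) : Prop :=
  ∃ (H : Subgroup Fˣ) (O : ValuationSubring F), T ≤ H ∧ H ≠ ⊤ ∧ Compat T H O

/-- gluing -/
theorem HasVal.glue {T₁ T₂ N : Subgroup Fˣ} (h₁ : HasVal T₁) (h₂ : HasVal T₂)
    (hN : N ≠ ⊤) (hN₁ : T₁ ≤ N) (hN₂ : T₂ ≤ N) : HasVal (T₁ ⊓ T₂) := by
  obtain ⟨H₁, A, hT₁, hH₁, hA⟩ := h₁
  obtain ⟨H₂, B, hT₂, hH₂, hB⟩ := h₂
  have inv : ∀ {C D : ValuationSubring F}, C ≤ D → ∀ x : F, x ∈ D → x⁻¹ ∉ D →
      x ∈ C ∧ x⁻¹ ∉ C := by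
    intro C D h x _ hx'
    have h1 : x⁻¹ ∉ C := fun hc => hx' (h hc)
    refine ⟨?_, h1⟩
    rcases C.mem_or_inv_mem x with h2 | h2
    · exact h2
    · exact absurd h2 h1
  have one : ∀ O : ValuationSubring F, A ≤ O → B ≤ O → ∀ x : F, x ∈ O → x⁻¹ ∉ O →
      ∃ t ∈ T₁ ⊓ T₂, (t : F) = 1 + x := by
    intro O hAO hBO x hx hx'
    obtain ⟨i1, i2⟩ := inv hAO x hx hx'
    obtain ⟨j1, j2⟩ := inv hBO x hx hx'
    obtain ⟨t, ht, e⟩ := hA.one x i1 i2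
    obtain ⟨s, hs, e'⟩ := hB.one x j1 j2
    have : t = s := Units.ext (e.trans e'.symm)
    subst this
    exact ⟨t, ⟨ht, hs⟩, e⟩
  by_cases hBA : B ≤ A
  · exact ⟨H₁, A, inf_le_left.trans hT₁, hH₁, hA.units, one A le_rfl hBA⟩
  by_cases hAB : A ≤ B
  · exact ⟨H₂, B, inf_le_right.trans hT₂, hH₂, hB.units, one B hAB le_rfl⟩
  refine ⟨N, prodRing A B, inf_le_left.trans hN₁, hN, fun u hu hu' =>
    unit_mem hAB hBA hA hB hN₁ hN₂ u hu hu', one _ ?_ ?_⟩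
  · intro x hx
    exact ⟨x, hx, 1, B.one_mem, (mul_one x).symm⟩
  · intro x hx
    exact ⟨1, A.one_mem, x, hx, (one_mul x).symm⟩

end Pool.Agent.U863.ST
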