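import Pool.Agent.U863.ST.Val
import Pool.Agent.N908.FR.Fld

/-! Trees of Steinberg symbols, `p` odd. -/

set_option autoImplicit false

namespace Pool.Agent.U863.ST

open Pool.Agent.R675.TP
open Pool.Agent.N908.FR (IsSymbol)
open Pool.Agent.Results.MP_600e55_nt.SymbolPartitions (powers)

/-- there is a Steinberg symbol with values in `ℤ/p` which vanishes at all pairs `(a_k, a_l)` except
`(a_i, a_j)` and `(a_j, a_i)`, where it does not vanish -/
def Separated {F : Type} [Field F] (p : ℕ) {ι : Type} (a : ι → Fˣ) (i j : ι) : Prop :=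
  ∃ c : Fˣ → Fˣ → ZMod p, IsSymbol p F c ∧ c (a i) (a j) ≠ 0 ∧
    ∀ k l : ι, ¬ (k = i ∧ l = j) → ¬ (k = j ∧ l = i) → c (a k) (a l) = 0

section

variable {p : ℕ} [Fact p.Prime] {F : Type} [Field F] {ι : Type} {a : ι → Fˣ}

/-- the subgroup generated by the `p`-th powers and the `a_k`, `k ≠ v` -/
def Mv (p : ℕ) (a : ι → Fˣ) (v : ι) : Subgroup Fˣ :=
  Subgroup.closure (a '' {k | k ≠ v}) ⊔ powers F p

lemma powers_le (v : ι) : powers F p ≤ Mv p a v := le_sup_right

lemma pow_mem_powers (x : Fˣ) : x ^ p ∈ powers F p := ⟨x, rfl⟩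

/-- homomorphisms to `ℤ/p` as functions -/
structure IsHom (f : Fˣ → ZMod p) : Prop where
  mul : ∀ x y : Fˣ, f (x * y) = f x + f y

lemma IsHom.one {f : Fˣ → ZMod p} (h : IsHom f) : f 1 = 0 := by
  have := h.mul 1 1
  rw [one_mul] at this
  simpa using this

lemma IsHom.inv {f : Fˣ → ZMod p} (h : IsHom f) (x : Fˣ) : f x⁻¹ = - f x := by
  have := h.mul x x⁻¹
  rw [mul_inv_cancel, h.one] at this
  exact (neg_eq_of_add_eq_zero_right this.symm).symm

lemma IsHom.pow {f : Fˣ → ZMod p} (h : IsHom f) (x : Fˣ) (n : ℕ) : f (x ^ n) = n * f x := by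
  induction n with
  | zero => simp [h.one]
  | succ n ih => rw [pow_succ, h.mul, ih]; push_cast; ring

/-- the kernel -/
def IsHom.ker {f : Fˣ → ZMod p} (h : IsHom f) : Subgroup Fˣ where
  carrier := {x | f x = 0}
  one_mem' := h.one
  mul_mem' := by
    intro x y hx hy
    show f (x * y) = 0
    rw [h.mul, show f x = 0 from hx, show f y = 0 from hy, add_zero]
  inv_mem' := by
    intro x hx
    show f x⁻¹ = 0
    rw [h.inv, show f x = 0 from hx, neg_zero]

lemma IsHom.mem_ker {f : Fˣ → ZMod p} (h : IsHom f) {x : Fˣ} : x ∈ h.ker ↔ f x = 0 := Iff.rfl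

lemma IsHom.powers_le {f : Fˣ → ZMod p} (h : IsHom f) : powers F p ≤ h.ker := by
  rintro _ ⟨t, rfl⟩
  rw [h.mem_ker]
  change f (t ^ p) = 0
  rw [h.pow]
  simp

lemma IsHom.zero {f : Fˣ → ZMod p} (h : IsHom f)
    (hgen : Subgroup.closure (Set.range a) ⊔ powers F p = ⊤) (h0 : ∀ k, f (a k) = 0) (x : Fˣ) :
    f x = 0 := by
  have : (⊤ : Subgroup Fˣ) ≤ h.ker := by
    rw [← hgen]
    refine sup_le ?_ h.powers_le
    rw [Subgroup.closure_le]
    rintro _ ⟨k, rfl⟩
    exact h0 k
  exact this (Subgroup.mem_top x)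

/-- coordinates -/
structure IsCoord (a : ι → Fˣ) (v : ι) (f : Fˣ → ZMod p) : Prop extends IsHom f where
  ne : f (a v) ≠ 0
  zero' : ∀ k, k ≠ v → f (a k) = 0

lemma IsCoord.mem_iff {v : ι} {f : Fˣ → ZMod p} (h : IsCoord a v f)
    (hgen : Subgroup.closure (Set.range a) ⊔ powers F p = ⊤) {x : Fˣ} :
    x ∈ Mv p a v ↔ f x = 0 := by
  constructor
  · intro hx
    have h1 : Mv p a v ≤ h.toIsHom.ker := by
      refine sup_le ?_ h.toIsHom.powers_le
      rw [Subgroup.closure_le]
      rintro _ ⟨k, hk, rfl⟩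
      exact h.zero' k hk
    exact h1 hx
  · intro hx
    have h1 : (⊤ : Subgroup Fˣ) ≤ Subgroup.zpowers (a v) ⊔ Mv p a v := by
      rw [← hgen]
      refine sup_le ?_ (le_sup_of_le_right (powers_le v))
      rw [Subgroup.closure_le]
      rintro _ ⟨k, rfl⟩
      by_cases hk : k = v
      · subst hk
        exact Subgroup.mem_sup_left (Subgroup.mem_zpowers _)
      · exact Subgroup.mem_sup_right (Subgroup.mem_sup_left (Subgroup.subset_closure ⟨k, hk, rfl⟩))
    obtain ⟨y, hy, z, hz, rfl⟩ := Subgroup.mem_sup.1 (h1 (Subgroup.mem_top x))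
    have hz0 : f z = 0 := by
      have h2 : Mv p a v ≤ h.toIsHom.ker := by
        refine sup_le ?_ h.toIsHom.powers_le
        rw [Subgroup.closure_le]
        rintro _ ⟨k, hk, rfl⟩
        exact h.zero' k hk
      exact h2 hz
    rw [h.mul, hz0, add_zero] at hx
    obtain ⟨m, rfl⟩ := Subgroup.mem_zpowers_iff.1 hy
    have hm : f (a v ^ m) = m * f (a v) := by
      rcases Int.eq_nat_or_neg m with ⟨n, rfl | rfl⟩
      · rw [zpow_natCast, h.toIsHom.pow]; simp
      · rw [zpow_neg, zpow_natCast, h.toIsHom.inv, h.toIsHom.pow]; simp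
    rw [hm] at hx
    have h3 : (m : ZMod p) = 0 := (mul_eq_zero.1 hx).resolve_right h.ne
    rw [ZMod.intCast_zmod_eq_zero_iff_dvd] at h3
    obtain ⟨k, rfl⟩ := h3
    refine (Mv p a v).mul_mem (powers_le v ⟨a v ^ k, ?_⟩) hz
    show (a v ^ k) ^ p = _
    rw [← zpow_natCast, ← zpow_mul, mul_comm]

lemma IsCoord.ne_top {v : ι} {f : Fˣ → ZMod p} (h : IsCoord a v f)
    (hgen : Subgroup.closure (Set.range a) ⊔ powers F p = ⊤) : Mv p a v ≠ ⊤ := by
  intro e
  have : a v ∈ Mv p a v := by rw [e]; trivial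
  exact h.ne ((h.mem_iff hgen).1 this)

/-- the intersection of all `M_v` -/
lemma inf_eq [Fintype ι] (hgen : Subgroup.closure (Set.range a) ⊔ powers F p = ⊤)
    (hc : ∀ v : ι, ∃ f : Fˣ → ZMod p, IsCoord a v f) : ⨅ v, Mv p a v = powers F p := by
  classical
  refine le_antisymm ?_ (le_iInf fun v => powers_le v)
  have key : ∀ S : Finset ι, ∀ x ∈ Subgroup.closure (a '' (S : Set ι)) ⊔ powers F p,
      (∀ v, x ∈ Mv p a v) → x ∈ powers F p := by
    intro S
    induction S using Finset.induction_on with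
    | empty =>
      intro x hx _
      simpa using hx
    | insert v S hv ih =>
      intro x hx hall
      rw [Finset.coe_insert, Set.image_insert_eq, Set.insert_eq, Subgroup.closure_union,
        ← Subgroup.zpowers_eq_closure, sup_assoc] at hx
      obtain ⟨y, hy, z, hz, rfl⟩ := Subgroup.mem_sup.1 hx
      obtain ⟨f, hf⟩ := hc v
      have hzv : z ∈ Mv p a v := by
        have : Subgroup.closure (a '' (S : Set ι)) ⊔ powers F p ≤ Mv p a v := by
          refine sup_le ?_ (powers_le v)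
          refine le_sup_of_le_left (Subgroup.closure_mono (Set.image_mono ?_))
          intro k hk
          show k ≠ v
          rintro rfl
          exact hv hk
        exact this hz
      have hyv : y ∈ Mv p a v := by
        have h1 := hall v
        exact ((Mv p a v).mul_mem_cancel_right hzv).1 h1
      obtain ⟨m, rfl⟩ := Subgroup.mem_zpowers_iff.1 hy
      have hm0 := (hf.mem_iff hgen).1 hyv
      have hm : f (a v ^ m) = m * f (a v) := by
        rcases Int.eq_nat_or_neg m with ⟨n, rfl | rfl⟩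
        · rw [zpow_natCast, hf.toIsHom.pow]; simp
        · rw [zpow_neg, zpow_natCast, hf.toIsHom.inv, hf.toIsHom.pow]; simp
      rw [hm] at hm0
      have h3 : (m : ZMod p) = 0 := (mul_eq_zero.1 hm0).resolve_right hf.ne
      rw [ZMod.intCast_zmod_eq_zero_iff_dvd] at h3
      obtain ⟨k, rfl⟩ := h3
      have hpw : a v ^ ((p : ℤ) * k) ∈ powers F p := by
        refine ⟨a v ^ k, ?_⟩
        show (a v ^ k) ^ p = _
        rw [← zpow_natCast, ← zpow_mul, mul_comm]
      refine (powers F p).mul_mem hpw (ih z hz fun w => ?_)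
      exact ((Mv p a w).mul_mem_cancel_left (powers_le w hpw)).1 (hall w)
  intro x hx
  rw [Subgroup.mem_iInf] at hx
  refine key Finset.univ x ?_ hx
  rw [Finset.coe_univ, Set.image_univ, hgen]
  trivial

end

end Pool.Agent.U863.ST
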