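import Pool.Agent.U863.ST.Sym

/-! Trees of Steinberg symbols, `p` odd: the valuation ring. -/

set_option autoImplicit false

namespace Pool.Agent.U863.ST

open Pool.Agent.R675.TP
open Pool.Agent.N908.FR (IsSymbol)
open Pool.Agent.Results.MP_600e55_nt.SymbolPartitions (powers)

section

variable {p : ℕ} [Fact p.Prime] {F : Type} [Field F] {ι : Type} {a : ι → Fˣ}

/-- the antisymmetry of symbols, `p` odd -/
lemma symb_anti (hp2 : p ≠ 2) {c : Fˣ → Fˣ → ZMod p} (hc : IsSymbol p F c) (x y : Fˣ) :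
    c y x = - c x y := by
  have h1 := hc.self hp2 (x * y)
  rw [hc.mul_left, hc.mul_right, hc.mul_right, hc.self hp2, hc.self hp2] at h1
  rw [zero_add, add_zero] at h1
  exact (neg_eq_of_add_eq_zero_right h1).symm

/-- the coordinates attached to an edge -/
lemma coords_of_edge {v w : ι} (hvw : v ≠ w) {c : Fˣ → Fˣ → ZMod p}
    (hc : IsSymbol p F c) (h0 : c (a v) (a w) ≠ 0)
    (hz : ∀ k l : ι, ¬ (k = v ∧ l = w) → ¬ (k = w ∧ l = v) → c (a k) (a l) = 0) :
    IsCoord a v (fun x => c x (a w)) ∧ IsCoord a w (fun x => c (a v) x) := by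
  refine ⟨⟨⟨fun x y => hc.mul_left x y _⟩, h0, fun k hk => ?_⟩,
    ⟨⟨fun x y => hc.mul_right _ x y⟩, h0, fun k hk => ?_⟩⟩
  · exact hz k w (fun e => hk e.1) (fun e => hvw e.2.symm)
  · exact hz v k (fun e => hk e.2) (fun e => hvw e.1)

/-- a symbol which is concentrated on one pair is a determinant -/
lemma symb_det (hp2 : p ≠ 2) (hgen : Subgroup.closure (Set.range a) ⊔ powers F p = ⊤)
    {v w : ι} (hvw : v ≠ w) {c : Fˣ → Fˣ → ZMod p}
    (hc : IsSymbol p F c)
    (hz : ∀ k l : ι, ¬ (k = v ∧ l = w) → ¬ (k = w ∧ l = v) → c (a k) (a l) = 0) (x y : Fˣ) :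
    c x y * c (a v) (a w) = c x (a w) * c (a v) y - c y (a w) * c (a v) x := by
  -- the difference
  have hE : ∀ y : Fˣ, IsHom (fun x => c x y * c (a v) (a w) -
      (c x (a w) * c (a v) y - c y (a w) * c (a v) x)) := by
    intro y
    refine ⟨fun x x' => ?_⟩
    simp only [hc.mul_left, hc.mul_right]
    ring
  have hE' : ∀ x : Fˣ, IsHom (fun y => c x y * c (a v) (a w) -
      (c x (a w) * c (a v) y - c y (a w) * c (a v) x)) := by
    intro x
    refine ⟨fun y y' => ?_⟩
    simp only [hc.mul_left, hc.mul_right]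
    ring
  have hself : ∀ k : ι, c (a k) (a k) = 0 := fun k => hc.self hp2 _
  have hanti := symb_anti hp2 hc (a v) (a w)
  have g1 : ∀ k l : ι, c (a k) (a l) * c (a v) (a w) -
      (c (a k) (a w) * c (a v) (a l) - c (a l) (a w) * c (a v) (a k)) = 0 := by
    intro k l
    by_cases h1 : k = v ∧ l = w
    · obtain ⟨rfl, rfl⟩ := h1
      rw [hself k]
      ring
    by_cases h2 : k = w ∧ l = v
    · obtain ⟨rfl, rfl⟩ := h2
      rw [hself k, hanti]
      ring
    rw [hz k l h1 h2]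
    have h3 : c (a k) (a w) * c (a v) (a l) = 0 := by
      by_cases hk : k = v
      · by_cases hl : l = w
        · exact absurd ⟨hk, hl⟩ h1
        · rw [hz v l (fun e => hl e.2) (fun e => hvw e.1), mul_zero]
      · rw [hz k w (fun e => hk e.1) (fun e => hvw e.2.symm), zero_mul]
    have h4 : c (a l) (a w) * c (a v) (a k) = 0 := by
      by_cases hl : l = v
      · by_cases hk : k = w
        · exact absurd ⟨hk, hl⟩ h2
        · rw [hz v k (fun e => hk e.2) (fun e => hvw e.1), mul_zero]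
      · rw [hz l w (fun e => hl e.1) (fun e => hvw e.2.symm), zero_mul]
    rw [h3, h4]
    ring
  have g2 : ∀ (x : Fˣ) (l : ι), c x (a l) * c (a v) (a w) -
      (c x (a w) * c (a v) (a l) - c (a l) (a w) * c (a v) x) = 0 := fun x l =>
    (hE (a l)).zero hgen (fun k => g1 k l) x
  have g3 := (hE' x).zero hgen (fun l => g2 x l) y
  exact sub_eq_zero.1 g3

/-- the line of `x` in the plane `F*/(ker f ∩ ker g)` -/
def line {f g : Fˣ → ZMod p} (hf : IsHom f) (hg : IsHom g) (x : Fˣ) : Subgroup Fˣ where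
  carrier := {y | f x * g y = f y * g x}
  one_mem' := by
    show f x * g 1 = f 1 * g x
    rw [hf.one, hg.one]; ring
  mul_mem' := by
    intro y z hy hz
    show f x * g (y * z) = f (y * z) * g x
    have hy' : f x * g y = f y * g x := hy
    have hz' : f x * g z = f z * g x := hz
    rw [hf.mul, hg.mul]
    linear_combination hy' + hz'
  inv_mem' := by
    intro y hy
    show f x * g y⁻¹ = f y⁻¹ * g x
    have hy' : f x * g y = f y * g x := hy
    rw [hf.inv, hg.inv]
    linear_combination -hy'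

lemma mem_line {f g : Fˣ → ZMod p} {hf : IsHom f} {hg : IsHom g} {x y : Fˣ} :
    y ∈ line hf hg x ↔ f x * g y = f y * g x := Iff.rfl

lemma line_le {f g : Fˣ → ZMod p} {hf : IsHom f} {hg : IsHom g} {x z : Fˣ}
    (hx : ¬ (f x = 0 ∧ g x = 0)) (hz : z ∈ line hf hg x) : line hf hg x ≤ line hf hg z := by
  intro y hy
  rw [mem_line] at hz hy ⊢
  have h1 : f x * (f z * g y - f y * g z) = 0 := by
    linear_combination f z * hy - f y * hz
  have h2 : g x * (f z * g y - f y * g z) = 0 := by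
    linear_combination g z * hy - g y * hz
  by_cases h3 : f x = 0
  · have h4 : g x ≠ 0 := fun h => hx ⟨h3, h⟩
    exact sub_eq_zero.1 ((mul_eq_zero.1 h2).resolve_left h4)
  · exact sub_eq_zero.1 ((mul_eq_zero.1 h1).resolve_left h3)

/-- an edge gives a valuation ring -/
theorem hasVal_of_edge (hp2 : p ≠ 2) (hgen : Subgroup.closure (Set.range a) ⊔ powers F p = ⊤)
    {v w : ι} (hvw : v ≠ w) (h : Separated p a v w) : HasVal (Mv p a v ⊓ Mv p a w) := by
  have hp : p.Prime := Fact.out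
  obtain ⟨c, hc, h0, hz⟩ := h
  obtain ⟨cf, cg⟩ := coords_of_edge hvw hc h0 hz
  set f : Fˣ → ZMod p := fun x => c x (a w) with hfdef
  set g : Fˣ → ZMod p := fun x => c (a v) x with hgdef
  have hf : IsHom f := cf.toIsHom
  have hg : IsHom g := cg.toIsHom
  have hT : ∀ x : Fˣ, x ∈ Mv p a v ⊓ Mv p a w ↔ f x = 0 ∧ g x = 0 := by
    intro x
    rw [Subgroup.mem_inf, cf.mem_iff hgen, cg.mem_iff hgen]
  have hfv : f (a v) ≠ 0 := cf.ne
  have hgw : g (a w) ≠ 0 := cg.ne
  have hfw : f (a w) = 0 := cf.zero' w hvw.symm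
  have hgv : g (a v) = 0 := cg.zero' v hvw
  have hline : ∀ x z : Fˣ, ¬ (f x = 0 ∧ g x = 0) → ¬ (f z = 0 ∧ g z = 0) → z ∈ line hf hg x →
      line hf hg z = line hf hg x := by
    intro x z hx hz h
    refine le_antisymm (line_le hz ?_) (line_le hx h)
    rw [mem_line] at h ⊢
    exact h.symm
  have hP : IsPart (Mv p a v ⊓ Mv p a w)
      {K | ∃ x : Fˣ, ¬ (f x = 0 ∧ g x = 0) ∧ K = line hf hg x} := by
    refine ⟨?_, ?_, ?_, ?_⟩
    · rintro _ ⟨x, hx, rfl⟩ y hy
      obtain ⟨h1, h2⟩ := (hT y).1 hy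
      rw [mem_line, h1, h2]; ring
    · rintro _ ⟨x, hx, rfl⟩ e
      have e1 : a w ∈ line hf hg x := by rw [e]; trivial
      have e2 : a v ∈ line hf hg x := by rw [e]; trivial
      rw [mem_line, hfw, zero_mul] at e1
      rw [mem_line, hgv, mul_zero] at e2
      exact hx ⟨(mul_eq_zero.1 e1).resolve_right hgw,
        (mul_eq_zero.1 e2.symm).resolve_left hfv⟩
    · intro x
      by_cases hx : f x = 0 ∧ g x = 0
      · refine ⟨line hf hg (a v), ⟨a v, fun e => hfv e.1, rfl⟩, ?_⟩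
        rw [mem_line, hx.1, hx.2]; ring
      · exact ⟨line hf hg x, ⟨x, hx, rfl⟩, rfl⟩
    · rintro _ ⟨x, hx, rfl⟩ _ ⟨y, hy, rfl⟩ hne
      refine le_antisymm ?_ ?_
      · intro z hz
        rw [hT]
        by_contra hz0
        exact hne ((hline x z hx hz0 hz.1).symm.trans (hline y z hy hz0 hz.2))
      · intro z hz
        obtain ⟨h1, h2⟩ := (hT z).1 hz
        constructor
        · show z ∈ line hf hg x
          rw [mem_line, h1, h2]; ring
        · show z ∈ line hf hg y
          rw [mem_line, h1, h2]; ring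
  refine hasVal_of_part hp hp2 (fun x => ?_) hP ?_ ?_
  · exact ⟨powers_le v ⟨x, rfl⟩, powers_le w ⟨x, rfl⟩⟩
  · intro K _
    -- finite index
    let Φ : Fˣ →* Multiplicative (ZMod p × ZMod p) :=
      { toFun := fun x => Multiplicative.ofAdd (f x, g x)
        map_one' := by rw [hf.one, hg.one]; rfl
        map_mul' := fun x y => by rw [hf.mul, hg.mul]; rfl }
    have hker : Φ.ker = Mv p a v ⊓ Mv p a w := by
      ext x
      rw [MonoidHom.mem_ker, hT]
      show Multiplicative.ofAdd (f x, g x) = 1 ↔ _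
      rw [ofAdd_eq_one, Prod.mk_eq_zero]
    have : Fact p.Prime := ‹_›
    have hfi : (Mv p a v ⊓ Mv p a w).FiniteIndex := by
      rw [← hker]
      exact Subgroup.finiteIndex_ker Φ
    have hdvd := Subgroup.relIndex_dvd_index_of_normal (Mv p a v ⊓ Mv p a w) K
    intro h0
    rw [h0, zero_dvd_iff] at hdvd
    exact hfi.index_ne_zero hdvd
  · rintro x s hx hs _ ⟨y, hy, rfl⟩ hxK
    rw [hT] at hx
    have h1 : c x s = 0 := hc.one_add hp2 x s hs
    have h2 := symb_det hp2 hgen hvw hc hz x s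
    rw [h1, zero_mul] at h2
    have h3 : s ∈ line hf hg x := by
      rw [mem_line]
      exact (sub_eq_zero.1 h2.symm)
    rw [← hline y x hy hx hxK]
    exact h3

/-- the valuation ring of a connected graph of separated pairs -/
theorem hasVal_of_connected [Fintype ι] [Nontrivial ι] (hp2 : p ≠ 2)
    (hgen : Subgroup.closure (Set.range a) ⊔ powers F p = ⊤) {G : SimpleGraph ι}
    (hG : G.Connected) (hsep : ∀ i j, G.Adj i j → Separated p a i j) : HasVal (powers F p) := by
  classical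
  -- every vertex has a neighbour
  have hcross : ∀ S : Set ι, S.Nonempty → S ≠ Set.univ → ∃ v w, G.Adj v w ∧ v ∈ S ∧ w ∉ S := by
    intro S hS hS'
    obtain ⟨v, hv⟩ := hS
    obtain ⟨w, hw⟩ := (Set.ne_univ_iff_exists_notMem S).1 hS'
    obtain ⟨P⟩ := hG.preconnected v w
    obtain ⟨d, -, h1, h2⟩ := P.exists_boundary_dart S hv hw
    exact ⟨d.fst, d.snd, d.adj, h1, h2⟩
  have hnb : ∀ v : ι, ∃ w, G.Adj v w := by
    intro v
    obtain ⟨u, w, h1, h2, -⟩ := hcross {v} ⟨v, rfl⟩ (by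
      intro e
      obtain ⟨w, hw⟩ := exists_ne v
      exact hw (by have : w ∈ ({v} : Set ι) := by rw [e]; trivial
                   exact this))
    rw [Set.mem_singleton_iff] at h2
    subst h2
    exact ⟨w, h1⟩
  have hco : ∀ v : ι, ∃ f : Fˣ → ZMod p, IsCoord a v f := by
    intro v
    obtain ⟨w, hw⟩ := hnb v
    obtain ⟨c, hc, h0, hz⟩ := hsep v w hw
    exact ⟨_, (coords_of_edge hw.ne hc h0 hz).1⟩
  have htop : ∀ v : ι, Mv p a v ≠ ⊤ := by
    intro v
    obtain ⟨f, hf⟩ := hco v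
    exact hf.ne_top hgen
  -- the good sets of vertices
  have step : ∀ S : Finset ι, HasVal (⨅ v ∈ S, Mv p a v) → ∀ w ∈ S, ∀ v, G.Adj w v →
      HasVal (⨅ u ∈ insert v S, Mv p a u) := by
    intro S hS w hw v hwv
    have h1 := hasVal_of_edge hp2 hgen hwv.ne (hsep w v hwv)
    have h2 : (⨅ u ∈ S, Mv p a u) ≤ Mv p a w := iInf₂_le w hw
    have h3 := hS.glue h1 (htop w) h2 inf_le_left
    have e : (⨅ u ∈ insert v S, Mv p a u) = (⨅ u ∈ S, Mv p a u) ⊓ (Mv p a w ⊓ Mv p a v) := by
      rw [Finset.iInf_insert, ← inf_assoc, inf_eq_left.2 h2, inf_comm]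
    rw [e]
    exact h3
  obtain ⟨S, ⟨hSne, hSval⟩, hSmax⟩ : ∃ S : Finset ι, (S.Nonempty ∧ HasVal (⨅ v ∈ S, Mv p a v)) ∧
      ∀ S' : Finset ι, (S'.Nonempty ∧ HasVal (⨅ v ∈ S', Mv p a v)) → S'.card ≤ S.card := by
    have hne : ((Finset.univ : Finset (Finset ι)).filter fun S =>
        S.Nonempty ∧ HasVal (⨅ v ∈ S, Mv p a v)).Nonempty := by
      obtain ⟨v, -⟩ := exists_pair_ne ι
      obtain ⟨w, hw⟩ := hnb v
      refine ⟨{v, w}, ?_⟩
      rw [Finset.mem_filter]
      refine ⟨Finset.mem_univ _, ⟨v, by simp⟩, ?_⟩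
      have h1 := hasVal_of_edge hp2 hgen hw.ne (hsep v w hw)
      have e : (⨅ u ∈ ({v, w} : Finset ι), Mv p a u) = Mv p a v ⊓ Mv p a w := by
        rw [Finset.iInf_insert, Finset.iInf_singleton]
      rw [e]
      exact h1
    obtain ⟨S, hS, hmax⟩ := Finset.exists_max_image _ Finset.card hne
    rw [Finset.mem_filter] at hS
    exact ⟨S, hS.2, fun S' hS' => hmax S' (by rw [Finset.mem_filter]; exact ⟨Finset.mem_univ _, hS'⟩)⟩
  have hfull : (S : Set ι) = Set.univ := by
    by_contra hc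
    obtain ⟨w, v, hwv, hw, hv⟩ := hcross (S : Set ι) (by exact_mod_cast hSne) hc
    have h1 := step S hSval w hw v hwv
    have h2 := hSmax (insert v S) ⟨Finset.insert_nonempty v S, h1⟩
    rw [Finset.card_insert_of_notMem hv] at h2
    omega
  have hSu : S = Finset.univ := by
    rw [← Finset.coe_univ, Finset.coe_inj] at hfull
    exact hfull
  rw [hSu] at hSval
  have e : (⨅ v ∈ (Finset.univ : Finset ι), Mv p a v) = powers F p := by
    rw [← inf_eq hgen hco]
    simp
  rwa [e] at hSval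

end

end Pool.Agent.U863.ST
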