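import Pool.Agent.U863.ST.Glue
import Pool.Agent.R675.TP.Part
import Pool.Agent.Y98.EP.PCD
import Pool.Agent.Y447.EP.WB

/-! Valuation rings from partitions of `F*/T`, for any `T` containing the `p`-th powers. -/

set_option autoImplicit false

namespace Pool.Agent.U863.ST

open Pool.Agent.Y920.EP Pool.Agent.R675.TP
open Pool.Agent.Y920.ETC (PCD Compat)

/-- from partitions of `F*/T` to valuation rings -/
theorem hasVal_of_part {p : ℕ} (hp : p.Prime) (hp2 : p ≠ 2) {F : Type} [Field F]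
    {T : Subgroup Fˣ} (hTp : ∀ x : Fˣ, x ^ p ∈ T) {P : Set (Subgroup Fˣ)} (hP : IsPart T P)
    (hfin : ∀ K ∈ P, T.relIndex K ≠ 0)
    (hsum : ∀ x v : Fˣ, x ∉ T → (v : F) = 1 + x → ∀ K ∈ P, x ∈ K → v ∈ K) : HasVal T := by
  obtain ⟨A, _, φ, hφ, hk⟩ := exists_quot F T
  have hodd : Odd p := hp.odd_of_ne_two hp2
  have hneg : φ (-1) = 1 := by
    rw [← MonoidHom.mem_ker, hk]
    have := hTp (-1)
    rwa [hodd.neg_one_pow] at this
  rw [← hk] at hP
  have hmem : ∀ u : Fˣ, u ∉ T ↔ φ u ≠ 1 := by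
    intro u
    rw [← hk, MonoidHom.mem_ker]
  have hT := tsys_of_part hφ hP hneg
    (fun x v hx hv K hK hxK => hsum x v ((hmem x).2 hx) hv K hK hxK)
  have hne : ∃ a : Fˣ, φ a ≠ 1 := by
    by_contra hc
    push Not at hc
    obtain ⟨K, hK, -⟩ := hP.cover 1
    apply hP.ne_top K hK
    rw [eq_top_iff]
    intro x _
    exact hP.le K hK (MonoidHom.mem_ker.2 (hc x))
  have hmap : ∀ u : Fˣ, φ u ≠ 1 → ∀ K ∈ P, u ∈ K → NnP hφ hP (φ u) = K.map φ := by
    intro u hu K hK huK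
    ext b
    obtain ⟨v, rfl⟩ := hφ b
    rw [mem_NnP hφ hP hu, Subgroup.mem_map]
    constructor
    · rintro ⟨K', hK', h2, h3⟩
      have e := hP.eq_of hK hK' (x := u) (by rw [MonoidHom.mem_ker]; exact hu) huK h2
      exact ⟨v, by rw [e]; exact h3, rfl⟩
    · rintro ⟨w, hw, hwv⟩
      refine ⟨K, hK, huK, ?_⟩
      have h1 : v / w ∈ K := hP.le K hK (by
        rw [MonoidHom.mem_ker, map_div, hwv, div_self'])
      have h2 := mul_mem h1 hw
      rwa [div_mul_cancel] at h2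
  have hfin' : ∀ u : Fˣ, φ u ≠ 1 → (NnP hφ hP (φ u) : Set A).Finite := by
    intro u hu
    obtain ⟨K, hK, huK⟩ := hP.cover u
    have h1 := hfin K hK
    rw [← hk, Subgroup.relIndex_ker] at h1
    have hf : Finite (K.map φ) := Nat.finite_of_card_ne_zero h1
    rw [hmap u hu K hK huK]
    exact Set.toFinite _
  have hexp : ∀ a : A, a ^ p = 1 := by
    intro a
    obtain ⟨u, rfl⟩ := hφ a
    rw [← map_pow, ← MonoidHom.mem_ker, hk]
    exact hTp u
  have hodd' : ∀ a : A, a * a = 1 → a = 1 := by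
    intro a ha
    obtain ⟨m, hm⟩ := hodd
    have h1 := hexp a
    rw [hm, pow_succ, pow_mul, pow_two, ha, one_pow, one_mul] at h1
    exact h1
  -- the block
  obtain ⟨b, hb1, hbad⟩ : ∃ b : Fˣ, φ b ≠ 1 ∧ ∀ y : Fˣ, Bd φ y → φ y ∈ NnP hφ hP (φ b) := by
    by_cases h1 : ∃ y, Bd φ y
    · obtain ⟨y, hy⟩ := h1
      refine ⟨y, hy.1, fun z hz => ?_⟩
      by_contra hc
      exact no_two hT hy hz hc hp.pos hexp hodd' (hfin' y hy.1)
    · obtain ⟨a, ha⟩ := hne
      exact ⟨a, ha, fun y hy => absurd ⟨y, hy⟩ h1⟩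
  obtain ⟨K, hKP, hbK⟩ := hP.cover b
  have hKm : NnP hφ hP (φ b) = K.map φ := hmap b hb1 K hKP hbK
  have hKc : (K.map φ).comap φ = K := by
    ext v
    rw [Subgroup.mem_comap, Subgroup.mem_map]
    constructor
    · rintro ⟨w, hw, hwv⟩
      have h1 : v / w ∈ K := hP.le K hKP (by
        rw [MonoidHom.mem_ker, map_div, hwv, div_self'])
      have h2 := mul_mem h1 hw
      rwa [div_mul_cancel] at h2
    · exact fun hv => ⟨v, hv, rfl⟩
  have hNR : NR φ ⊆ ((K.map φ : Subgroup A) : Set A) := by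
    rintro a ⟨ha1, r, s, hr, hrs, hs1, hs2⟩
    have h1 : φ (-r) = a := by rw [phi_neg hT.neg, hr]
    have h2 : Bd φ (-r) := by
      rw [Bd.iff (s := s) (by rw [Units.val_neg]; linear_combination hrs), h1]
      exact ⟨ha1, hs1, hs2⟩
    have h3 := hbad _ h2
    rw [h1, hKm] at h3
    exact h3
  have hRP : RP φ.ker ((K.map φ).comap φ) := rp_of hT.neg _ hNR
  rw [hKc, hk] at hRP
  have hsq : ∀ x : Fˣ, x * x ∈ K → x ∈ K := by
    intro x hx
    obtain ⟨m, hm⟩ := hodd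
    have h1 : x ^ p ∈ K := by
      have := hP.le K hKP
      rw [hk] at this
      exact this (hTp x)
    rw [hm, pow_succ, pow_mul, pow_two] at h1
    exact (K.mul_mem_cancel_left (pow_mem hx m)).1 h1
  have hPCD := Pool.Agent.Y98.EP.t_PCD F T K hRP hsq
  obtain ⟨O, hO⟩ := Pool.Agent.Y447.EP.t_WB' F T K hRP hPCD
  exact ⟨K, O, hRP.le, hP.ne_top K hKP, hO⟩

end Pool.Agent.U863.ST
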